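import Pool.Agent.K7.H69.EK.Col

/-!
# The joint distribution of additive functions at divergent starting values of the `3x+1` map

Sets of integers invariant under `T` and its inverse (the set of the integers with a divergent trajectory,
for instance) are asymptotically independent of the vectors of additive functions at several linear forms:
the Erdős-Kac theorem holds on these sets, jointly.
-/

set_option autoImplicit false

namespace Pool.Agent.Results.MP_ff4775_nt.AdditiveFunctions

open Finset Filter Topology MeasureTheory ProbabilityTheory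

/-- The `3x+1` map on the integers. -/
def T (x : ℤ) : ℤ := if x % 2 = 0 then x / 2 else (3 * x + 1) / 2

/-- The trajectory of `x` is divergent. -/
def Divergent (x : ℤ) : Prop := Tendsto (fun k : ℕ => |T^[k] x|) atTop atTop

/-- The strongly additive function with the values `f p` at the primes: the sum of `f p` over the prime
divisors `p` of `n` (and `0` for `n = 0`). -/
noncomputable def add (f : ℕ → ℝ) (n : ℤ) : ℝ := ∑ p ∈ n.natAbs.primeFactors, f p

/-- Its mean: the sum of `f p / p` over the primes `p ≤ N`. -/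
noncomputable def mean (f : ℕ → ℝ) (N : ℕ) : ℝ := ∑ p ∈ (Icc 1 N).filter Nat.Prime, f p / p

/-- Its standard deviation: the square root of the sum of `f p ^ 2 / p` over the primes `p ≤ N`. -/
noncomputable def dev (f : ℕ → ℝ) (N : ℕ) : ℝ := √(∑ p ∈ (Icc 1 N).filter Nat.Prime, f p ^ 2 / p)

/-- Linear forms `a i * x + b i` and functions `f i` on the primes, bounded by `1`, with unbounded standard
deviation; the functions at two proportional forms (for instance at the same form) have disjoint supports. -/
structure System {I : Type} (a b : I → ℤ) (f : I → ℕ → ℝ) : Prop where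
  ne : ∀ i, a i ≠ 0
  le : ∀ i p, |f i p| ≤ 1
  disjoint : ∀ i j, i ≠ j → a i * b j = a j * b i → ∀ p, f i p = 0 ∨ f j p = 0
  unbounded : ∀ i, Tendsto (dev (f i)) atTop atTop

/-- The vector of the normalised values of the additive functions at the linear forms. -/
noncomputable def values {I : Type} (a b : I → ℤ) (f : I → ℕ → ℝ) (N : ℕ) (m : ℤ) : I → ℝ :=
  fun i => (add (f i) (a i * m + b i) - mean (f i) N) / dev (f i) N

/-- The number of the `n ≤ N`, `n ≡ r mod q`, with `s n` in `S` and vector of values in `E`. -/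
noncomputable def count {I : Type} (s : ℤ) (S : Set ℤ) (q r : ℕ) (a b : I → ℤ) (f : I → ℕ → ℝ)
    (E : Set (I → ℝ)) (N : ℕ) : ℕ :=
  {n : ℕ | 1 ≤ n ∧ n ≤ N ∧ n ≡ r [MOD q] ∧ s * (n : ℤ) ∈ S ∧ values a b f N (s * (n : ℤ)) ∈ E}.ncard

/-- The standard normal law on `ℝ^I`: independent standard normal coordinates. -/
noncomputable def normal (I : Type) [Fintype I] : Measure (I → ℝ) := Measure.pi fun _ => gaussianReal 0 1

theorem div_T (x : ℤ) : Divergent x ↔ Divergent (T x) := by
  unfold Divergent
  rw [← tendsto_add_atTop_iff_nat (f := fun k : ℕ => |T^[k] x|) 1]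
  simp only [Function.iterate_succ_apply]

/-- from `T` to the map `n/2`, `3n+1` -/
theorem ci_of {S : Set ℤ} (h : ∀ x, x ∈ S ↔ T x ∈ S) (x : ℤ) :
    x ∈ S ↔ Pool.Agent.H499R2.ND.Ci x ∈ S := by
  unfold Pool.Agent.H499R2.ND.Ci
  by_cases h2 : x % 2 = 0
  · rw [if_pos h2, h x]
    have : T x = x / 2 := by unfold T; rw [if_pos h2]
    rw [this]
  · rw [if_neg h2, h x, h (3 * x + 1)]
    have h3 : T x = (3 * x + 1) / 2 := by unfold T; rw [if_neg h2]
    have h4 : T (3 * x + 1) = (3 * x + 1) / 2 := by unfold T; rw [if_pos (by omega)]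
    rw [h3, h4]

/-- Let `s = 1` or `s = -1`.
(1) Every set `S` of integers invariant under `T` and its inverse has a density `δ` among the integers of
sign `s`, positive unless no element of `S` has sign `s`, and less than `1` unless all integers of sign `s`
are in `S`, such that the following holds. For all systems of linear forms and additive functions, all
residue classes `r mod q` and all sets `E` with boundary of measure `0` for the normal law: the number of
the `n ≤ N`, `n ≡ r mod q`, with `s n ∈ S` and the vector of the normalised values of the additive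
functions at the forms in `s n` in `E`, divided by `N`, tends to `δ / q` times the normal law of `E`.
(2) SUFFICIENT SETS. If for one system, one residue class and one set `E` of positive normal law with
boundary of measure `0` the lower density of the `n`, `n ≡ r mod q`, with vector of values in `E` and `s n`
of divergent trajectory is `0`, then no integer of sign `s` has a divergent trajectory. -/
theorem result {s : ℤ} (hs : s = 1 ∨ s = -1) :
    (∀ S : Set ℤ, (∀ x, x ∈ S ↔ T x ∈ S) → ∃ δ : ℝ, (0 < δ ↔ ∃ x ∈ S, 0 < s * x) ∧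
      (δ = 1 ↔ ∀ x, 0 < s * x → x ∈ S) ∧
      ∀ (I : Type) [Fintype I] (a b : I → ℤ) (f : I → ℕ → ℝ), System a b f → ∀ q r : ℕ, 1 ≤ q →
        ∀ E : Set (I → ℝ), normal I (frontier E) = 0 →
        Tendsto (fun N : ℕ => (count s S q r a b f E N : ℝ) / N) atTop
          (𝓝 (δ / q * (normal I E).toReal))) ∧
    (∀ (I : Type) [Fintype I] (a b : I → ℤ) (f : I → ℕ → ℝ), System a b f → ∀ q r : ℕ, 1 ≤ q →
      ∀ E : Set (I → ℝ), normal I (frontier E) = 0 → 0 < normal I E →
      (∀ ε : ℝ, 0 < ε → ∃ᶠ N : ℕ in atTop, (count s {x | Divergent x} q r a b f E N : ℝ) ≤ ε * N) →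
      ∀ x : ℤ, 0 < s * x → ¬ Divergent x) := by
  classical
  have key : ∀ S : Set ℤ, (∀ x, x ∈ S ↔ T x ∈ S) → ∃ δ : ℝ, (0 < δ ↔ ∃ x ∈ S, 0 < s * x) ∧
      (δ = 1 ↔ ∀ x, 0 < s * x → x ∈ S) ∧
      ∀ (I : Type) [Fintype I] (a b : I → ℤ) (f : I → ℕ → ℝ), System a b f → ∀ q r : ℕ, 1 ≤ q →
        ∀ E : Set (I → ℝ), normal I (frontier E) = 0 →
        Tendsto (fun N : ℕ => (count s S q r a b f E N : ℝ) / N) atTop
          (𝓝 (δ / q * (normal I E).toReal)) := by
    intro S hS
    obtain ⟨δ, h1, h2, h3⟩ := Pool.Agent.K7.H69.EK.inv_law hs (ci_of hS)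
    refine ⟨δ, h1, h2, ?_⟩
    intro I _ a b f hsys q r hq E hE
    have hS' : Pool.Agent.K7.H69.EK.Sys a b f := by
      refine ⟨hsys.ne, hsys.le, fun i j hij he p => ?_, hsys.unbounded⟩
      rcases hsys.disjoint i j hij he p with h | h
      · rw [h, zero_mul]
      · rw [h, mul_zero]
    refine (h3 I a b f hS' q r hq E hE).congr fun N => ?_
    congr 2
    unfold count
    rw [← Set.ncard_coe_finset]
    congr 1
    ext n
    rw [Finset.mem_coe, Finset.mem_filter, Finset.mem_Icc]
    constructor
    · rintro ⟨⟨g1, g2⟩, ⟨g3, g4⟩, g5⟩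
      exact ⟨g1, g2, g3, g4, g5⟩
    · rintro ⟨g1, g2, g3, g4, g5⟩
      exact ⟨⟨g1, g2⟩, ⟨g3, g4⟩, g5⟩
  refine ⟨key, ?_⟩
  intro I _ a b f hsys q r hq E hE hEpos hfreq x hx hdiv
  obtain ⟨δ, h1, -, h3⟩ := key {x | Divergent x} div_T
  have hδ : 0 < δ := h1.2 ⟨x, hdiv, hx⟩
  have hlim := h3 I a b f hsys q r hq E hE
  have : IsProbabilityMeasure (normal I) := by unfold normal; infer_instance
  have hEr : 0 < (normal I E).toReal := ENNReal.toReal_pos hEpos.ne' (measure_ne_top _ _)
  have hq0 : (0 : ℝ) < q := by exact_mod_cast hq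
  have hL : 0 < δ / q * (normal I E).toReal := by positivity
  have hev := hlim.eventually_const_lt (half_lt_self hL)
  obtain ⟨N, ⟨hN, hN2⟩, hN3⟩ := (((hfreq _ (half_pos hL)).and_eventually hev).and_eventually
    (eventually_ge_atTop 1)).exists
  have hN0 : (0 : ℝ) < N := by exact_mod_cast hN3
  rw [lt_div_iff₀ hN0] at hN2
  linarith

end Pool.Agent.Results.MP_ff4775_nt.AdditiveFunctions
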