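import Pool.Agent.K7.H66.CW.ND

/-!
# The arcsine law for the coalescence of the trajectories of `x` and `x + h`

The trajectories of `x` and of a near neighbour `x + h` of the size of `x ^ o(1)` coalesce within
`t = log₂ x` steps of the `3x+1` map for almost all `x`; for `h` of the size `x ^ c` this has a
positive limit probability, which is given by an arcsine law.  For almost all shifts `h < H` the
proportion of the integers `x` with `T^t (x) = T^t (x + h)` is `(2 / π) arccos √u` with
`u = 2 log H / (t log (4 / 3))`, which is `0` for `u ≥ 1`.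
-/

set_option autoImplicit false

namespace Pool.Agent.Results.MP_ff4775_nt.ArcsineLaw

open Finset Filter Topology

/-- The accelerated Collatz map on the integers. -/
def T (x : ℤ) : ℤ := if x % 2 = 0 then x / 2 else (3 * x + 1) / 2

/-- The trajectory of `x` is divergent. -/
def Divergent (x : ℤ) : Prop := Tendsto (fun k : ℕ => |T^[k] x|) atTop atTop

/-- The number of the integers `x` with `M ≤ x < M + N` and the property `P`. -/
noncomputable def count (M : ℤ) (N : ℕ) (P : ℤ → Prop) : ℕ :=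
  {x : ℤ | M ≤ x ∧ x < M + N ∧ P x}.ncard

/-- The limit probability of coalescence within `t` steps for shifts up to `H`. (The function
`Real.arccos` is `0` on `[1, ∞)`.) -/
noncomputable def law (t H : ℕ) : ℝ :=
  2 / Real.pi * Real.arccos (√ (2 * Real.log H / (t * Real.log (4 / 3))))

theorem T_eq : T = Pool.Agent.H499R2.CO.Tz 1 := rfl

theorem law_eq (t H : ℕ) : law t H =
    2 / Real.pi * Real.arccos (√ (Real.log H / (Pool.Agent.K7.H66.CW.c0 * t))) := by
  unfold law Pool.Agent.K7.H66.CW.c0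
  congr 3
  rw [show Real.log (4 / 3) / 2 * (t : ℝ) = (t * Real.log (4 / 3)) / 2 by ring, div_div_eq_mul_div]
  ring

theorem div_T (x : ℤ) : Divergent x ↔ Divergent (T x) := by
  unfold Divergent
  rw [← tendsto_add_atTop_iff_nat (f := fun k : ℕ => |T^[k] x|) 1]
  simp only [Function.iterate_succ_apply]

theorem count_eq (M : ℤ) (N : ℕ) (P : ℤ → Prop) [DecidablePred P] :
    count M N P = #((Finset.Ico M (M + N)).filter P) := by
  unfold count
  rw [← Set.ncard_coe_finset]
  congr 1
  ext x
  simp only [Finset.coe_filter, Finset.mem_Ico, Set.mem_ofPred_eq, and_assoc]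

theorem count_mono (M : ℤ) (N : ℕ) {P Q : ℤ → Prop} (h : ∀ x, P x → Q x) :
    count M N P ≤ count M N Q := by
  classical
  rw [count_eq, count_eq]
  exact card_le_card (fun x hx => by
    rw [mem_filter] at hx ⊢
    exact ⟨hx.1, h x hx.2⟩)

theorem count_not (M : ℤ) (N : ℕ) (P : ℤ → Prop) : count M N P + count M N (fun x => ¬ P x) = N := by
  classical
  rw [count_eq, count_eq, Finset.card_filter_add_card_filter_not, Int.card_Ico]
  simp

theorem inv_iter {S : Set ℤ} (hS : ∀ x, x ∈ S ↔ T x ∈ S) (t : ℕ) (x : ℤ) : x ∈ S ↔ T^[t] x ∈ S := by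
  induction t generalizing x with
  | zero => rfl
  | succ t ih => rw [Function.iterate_succ_apply, hS x, ih (T x)]

/-- (1) The arcsine law of coalescence for the `3x+1` map `T` on the integers. For every `ε > 0`, all
large `t` and every `H ≥ 1`, for all `h < H` but at most `ε H`, uniformly in the interval: the number
of the integers `x`, `M ≤ x < M + N`, with `T^t (x) = T^t (x + h)` is
`N * ((2 / π) arccos √(2 log H / (t log (4 / 3))) + O(ε))`.
(2) For every set `S` of integers with `x ∈ S ↔ T x ∈ S`, the number of the `x` in the interval for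
which exactly one of `x` and `x + h` is in `S` is at most `N * (1 - law t H + ε)`.
(3) The same for the integers with divergent trajectories. -/
theorem result (ε : ℝ) (hε : 0 < ε) : ∃ δ : ℝ, 0 < δ ∧ ∃ t0 : ℕ, ∀ t ≥ t0, ∀ H : ℕ, 1 ≤ H →
    ∃ B : Finset ℕ, (#B : ℝ) ≤ ε * H ∧ ∀ h < H, h ∉ B → ∀ (M : ℤ) (N : ℕ), (2 : ℝ) ^ t ≤ δ * N →
    |(count M N (fun x => T^[t] x = T^[t] (x + h)) : ℝ) - N * law t H| ≤ ε * N ∧
    (∀ S : Set ℤ, (∀ x, x ∈ S ↔ T x ∈ S) →
      (count M N (fun x => ¬ (x ∈ S ↔ x + h ∈ S)) : ℝ) ≤ N * (1 - law t H + ε)) ∧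
    (count M N (fun x => ¬ (Divergent x ↔ Divergent (x + h))) : ℝ) ≤ N * (1 - law t H + ε) := by
  obtain ⟨δ, hδ, t0, h⟩ := Pool.Agent.K7.H66.CW.arc_int hε
  refine ⟨δ, hδ, t0, fun t ht H hH => ?_⟩
  obtain ⟨B, hB, hBh⟩ := h t ht H hH
  refine ⟨B, hB, fun h hh hhB M N hN => ?_⟩
  have h1 := hBh h hh hhB M N hN
  rw [← T_eq, ← law_eq] at h1
  have h2 : (count M N (fun x => T^[t] x = T^[t] (x + h)) : ℝ) =
      (#((Finset.Ico M (M + N)).filter (fun x => T^[t] x = T^[t] (x + h))) : ℝ) := by
    rw [count_eq]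
  rw [← h2] at h1
  have h3 : ∀ S : Set ℤ, (∀ x, x ∈ S ↔ T x ∈ S) →
      (count M N (fun x => ¬ (x ∈ S ↔ x + h ∈ S)) : ℝ) ≤ N * (1 - law t H + ε) := by
    intro S hS
    have e1 : count M N (fun x => ¬ (x ∈ S ↔ x + h ∈ S)) ≤
        count M N (fun x => ¬ T^[t] x = T^[t] (x + h)) := by
      apply count_mono
      intro x hx heq
      apply hx
      rw [inv_iter hS t x, inv_iter hS t (x + h), heq]
    have e2 := count_not M N (fun x => T^[t] x = T^[t] (x + h))
    have e3 : (count M N (fun x => T^[t] x = T^[t] (x + h)) : ℝ) +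
        (count M N (fun x => ¬ T^[t] x = T^[t] (x + h)) : ℝ) = N := by
      exact_mod_cast e2
    have e4 : (count M N (fun x => ¬ (x ∈ S ↔ x + h ∈ S)) : ℝ) ≤
        (count M N (fun x => ¬ T^[t] x = T^[t] (x + h)) : ℝ) := by
      exact_mod_cast e1
    have e5 := (abs_le.1 h1).1
    have e6 : N * (1 - law t H + ε) = N - N * law t H + ε * N := by ring
    rw [e6]
    linarith
  exact ⟨h1, h3, h3 {x | Divergent x} (fun x => div_T x)⟩

end Pool.Agent.Results.MP_ff4775_nt.ArcsineLaw
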