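import Pool.Agent.K7.H66.CW.M

/-!
# Coalescence of the trajectories of `3^i x + r` and `3^j x + r'`: the limit law

For `t` steps of the `3x+1` map the critical window is `|i - j| ≍ √t`.  Up to a proportion `ε` of the
integers `x` of any interval of length `≥ 2 ^ t / δ`, uniformly in `i`, `j` and in the shifts
`|r|, |r'| ≤ exp (δ t)`, the proportion of the `x` with `T^t (3^i x + r) = T^t (3^j x + r')` is the
probability that a standard normal variable exceeds `|i - j| √(2 / t)` in absolute value, that is,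
`erfc (|i - j| / √t)`.
-/

set_option autoImplicit false

namespace Pool.Agent.Results.MP_ff4775_nt.CriticalWindow

open Finset Filter Topology

/-- The accelerated Collatz map on the integers. -/
def T (x : ℤ) : ℤ := if x % 2 = 0 then x / 2 else (3 * x + 1) / 2

/-- The trajectory of `x` is divergent. -/
def Divergent (x : ℤ) : Prop := Tendsto (fun k : ℕ => |T^[k] x|) atTop atTop

/-- The probability that a standard normal variable is larger than `x` in absolute value. -/
noncomputable def tail (x : ℝ) : ℝ := (ProbabilityTheory.gaussianReal 0 1).real {z : ℝ | x < |z|}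

/-- The number of the integers `x` with `M ≤ x < M + N` and the property `P`. -/
noncomputable def count (M : ℤ) (N : ℕ) (P : ℤ → Prop) : ℕ :=
  {x : ℤ | M ≤ x ∧ x < M + N ∧ P x}.ncard

theorem T_eq : T = Pool.Agent.H499R2.CO.Tz 1 := rfl

theorem div_T (x : ℤ) : Divergent x ↔ Divergent (T x) := by
  unfold Divergent
  rw [← tendsto_add_atTop_iff_nat (f := fun k : ℕ => |T^[k] x|) 1]
  simp only [Function.iterate_succ_apply]

theorem count_eq (M : ℤ) (N : ℕ) (P : ℤ → Prop) [DecidablePred P] :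
    count M N P = #((Finset.Ico M (M + N)).filter P) := by
  unfold count
  rw [← Set.ncard_coe_finset]
  congr 1
  ext x
  simp only [Finset.coe_filter, Finset.mem_Ico, Set.mem_ofPred_eq, and_assoc]

theorem count_mono (M : ℤ) (N : ℕ) {P Q : ℤ → Prop} (h : ∀ x, P x → Q x) :
    count M N P ≤ count M N Q := by
  classical
  rw [count_eq, count_eq]
  exact card_le_card (fun x hx => by
    rw [mem_filter] at hx ⊢
    exact ⟨hx.1, h x hx.2⟩)

theorem count_not (M : ℤ) (N : ℕ) (P : ℤ → Prop) : count M N P + count M N (fun x => ¬ P x) = N := by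
  classical
  rw [count_eq, count_eq, Finset.card_filter_add_card_filter_not, Int.card_Ico]
  simp

theorem inv_iter {S : Set ℤ} (hS : ∀ x, x ∈ S ↔ T x ∈ S) (t : ℕ) (x : ℤ) : x ∈ S ↔ T^[t] x ∈ S := by
  induction t generalizing x with
  | zero => rfl
  | succ t ih => rw [Function.iterate_succ_apply, hS x, ih (T x)]

/-- (1) The limit law of coalescence for the `3x+1` map `T` on the integers, uniform in the interval,
in the exponents of `3` and in the shifts: the number of the integers `x`, `M ≤ x < M + N`, with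
`T^t (3^i x + r) = T^t (3^j x + r')` is `N * (tail (|i - j| √(2 / t)) + O(ε))`.
(2) For every set `S` of integers with `x ∈ S ↔ T x ∈ S`, the number of the `x` in the interval for
which exactly one of `3^i x + r` and `3^j x + r'` is in `S` is at most
`N * (1 - tail (|i - j| √(2 / t)) + ε)`.
(3) The same for the integers with divergent trajectories. -/
theorem result (ε : ℝ) (hε : 0 < ε) : ∃ δ : ℝ, 0 < δ ∧ ∃ t0 : ℕ, ∀ t ≥ t0, ∀ (M : ℤ) (N : ℕ),
    (2 : ℝ) ^ t ≤ δ * N → ∀ (i j : ℕ) (r r' : ℤ),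
    |(r : ℝ)| ≤ Real.exp (δ * t) → |(r' : ℝ)| ≤ Real.exp (δ * t) →
    |(count M N (fun x => T^[t] (3 ^ i * x + r) = T^[t] (3 ^ j * x + r')) : ℝ) -
      N * tail (|(i : ℝ) - j| * √ (2 / t))| ≤ ε * N ∧
    (∀ S : Set ℤ, (∀ x, x ∈ S ↔ T x ∈ S) →
      (count M N (fun x => ¬ (3 ^ i * x + r ∈ S ↔ 3 ^ j * x + r' ∈ S)) : ℝ) ≤
        N * (1 - tail (|(i : ℝ) - j| * √ (2 / t)) + ε)) ∧
    (count M N (fun x => ¬ (Divergent (3 ^ i * x + r) ↔ Divergent (3 ^ j * x + r'))) : ℝ) ≤
        N * (1 - tail (|(i : ℝ) - j| * √ (2 / t)) + ε) := by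
  obtain ⟨δ, hδ, t0, h⟩ := Pool.Agent.K7.H66.CW.int_law hε
  refine ⟨δ, hδ, t0, fun t ht M N hN i j r r' hr hr' => ?_⟩
  have h1 := h t ht M N hN i j r r' hr hr'
  rw [← T_eq] at h1
  have h2 : (count M N (fun x => T^[t] (3 ^ i * x + r) = T^[t] (3 ^ j * x + r')) : ℝ) =
      (#((Finset.Ico M (M + N)).filter (fun x => T^[t] (3 ^ i * x + r) = T^[t] (3 ^ j * x + r'))) : ℝ) := by
    rw [count_eq]
  rw [← h2] at h1
  have h3 : ∀ S : Set ℤ, (∀ x, x ∈ S ↔ T x ∈ S) →
      (count M N (fun x => ¬ (3 ^ i * x + r ∈ S ↔ 3 ^ j * x + r' ∈ S)) : ℝ) ≤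
        N * (1 - tail (|(i : ℝ) - j| * √ (2 / t)) + ε) := by
    intro S hS
    have e1 : count M N (fun x => ¬ (3 ^ i * x + r ∈ S ↔ 3 ^ j * x + r' ∈ S)) ≤
        count M N (fun x => ¬ T^[t] (3 ^ i * x + r) = T^[t] (3 ^ j * x + r')) := by
      apply count_mono
      intro x hx heq
      apply hx
      rw [inv_iter hS t (3 ^ i * x + r), inv_iter hS t (3 ^ j * x + r'), heq]
    have e2 := count_not M N (fun x => T^[t] (3 ^ i * x + r) = T^[t] (3 ^ j * x + r'))
    have e3 : (count M N (fun x => T^[t] (3 ^ i * x + r) = T^[t] (3 ^ j * x + r')) : ℝ) +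
        (count M N (fun x => ¬ T^[t] (3 ^ i * x + r) = T^[t] (3 ^ j * x + r')) : ℝ) = N := by
      exact_mod_cast e2
    have e4 : (count M N (fun x => ¬ (3 ^ i * x + r ∈ S ↔ 3 ^ j * x + r' ∈ S)) : ℝ) ≤
        (count M N (fun x => ¬ T^[t] (3 ^ i * x + r) = T^[t] (3 ^ j * x + r')) : ℝ) := by
      exact_mod_cast e1
    have e5 := (abs_le.1 h1).1
    have e6 : N * (1 - tail (|(i : ℝ) - j| * √ (2 / t)) + ε) =
        N - N * tail (|(i : ℝ) - j| * √ (2 / t)) + ε * N := by ring
    rw [e6]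
    change -(ε * N) ≤ _ - N * tail (|(i : ℝ) - j| * √ (2 / t)) at e5
    linarith
  exact ⟨h1, h3, h3 {x | Divergent x} (fun x => div_T x)⟩

end Pool.Agent.Results.MP_ff4775_nt.CriticalWindow
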