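import Pool.Agent.K7.H66.CW.O5

/-!
# The sharp tail of the coalescence time of `3^i x + r` and `3^j x + r'`

The proportion of the integers `x` for which the trajectories of `3^i x + r` and `3^j x + r'` have not
met after `t` steps of the `3x+1` map is asymptotic to `(2 / √π) L / √t`, where `L` is the limit of the
mean distance of the exponents of `3`, that is, of `|i + o_k (3^i x + r) - j - o_k (3^j x + r')|`, with
`o_k` the number of the odd terms among the first `k` terms of the trajectory.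
-/

set_option autoImplicit false

namespace Pool.Agent.Results.MP_ff4775_nt.SharpTail

open Finset Filter Topology
open Pool.Agent.K7.H66.CW (aa st_00 mean_eq)
open Pool.Agent.W38.CR (st)

/-- The accelerated Collatz map on the integers. -/
def T (x : ℤ) : ℤ := if x % 2 = 0 then x / 2 else (3 * x + 1) / 2

/-- The trajectory of `x` is divergent. -/
def Divergent (x : ℤ) : Prop := Tendsto (fun k : ℕ => |T^[k] x|) atTop atTop

/-- The number of the integers `x` with `M ≤ x < M + N` and the property `P`. -/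
noncomputable def count (M : ℤ) (N : ℕ) (P : ℤ → Prop) : ℕ :=
  {x : ℤ | M ≤ x ∧ x < M + N ∧ P x}.ncard

/-- The number of the odd terms among the first `k` terms of the trajectory of `n`. -/
def odd (k : ℕ) (n : ℤ) : ℕ := ((range k).filter fun m => (T^[m] n) % 2 = 1).card

/-- The mean distance of the exponents of `3` after `k` steps. -/
noncomputable def mean (k i j : ℕ) (r r' : ℤ) : ℝ :=
  (∑ x ∈ range (2 ^ k), |((i : ℝ) + odd k (3 ^ i * x + r)) - (j + odd k (3 ^ j * x + r'))|) / 2 ^ k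

/-- The limit of the mean distances. -/
noncomputable def lim (i j : ℕ) (r r' : ℤ) : ℝ := ⨆ k, mean k i j r r'

/-- The scale of the error. -/
noncomputable def scale (i j : ℕ) (r r' : ℤ) : ℝ :=
  1 + |(i : ℝ) - j| + √ (Real.log (2 + |(r : ℝ)| + |(r' : ℝ)|))

theorem T_eq : T = Pool.Agent.H499R2.CO.Tz 1 := rfl

theorem mean_eq' (k i j : ℕ) (r r' : ℤ) : mean k i j r r' =
    ((Pool.Agent.H499R2.CO.P)^[k] Pool.Agent.K7.H66.CW.lv) (st (i, r) (j, r')) :=
  mean_eq k i j r r'

theorem lim_eq (i j : ℕ) (r r' : ℤ) : lim i j r r' = aa (st (i, r) (j, r')) := by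
  unfold lim aa
  congr 1
  funext k
  exact mean_eq' k i j r r'

theorem div_T (x : ℤ) : Divergent x ↔ Divergent (T x) := by
  unfold Divergent
  rw [← tendsto_add_atTop_iff_nat (f := fun k : ℕ => |T^[k] x|) 1]
  simp only [Function.iterate_succ_apply]

theorem count_eq (M : ℤ) (N : ℕ) (P : ℤ → Prop) [DecidablePred P] :
    count M N P = #((Finset.Ico M (M + N)).filter P) := by
  unfold count
  rw [← Set.ncard_coe_finset]
  congr 1
  ext x
  simp only [Finset.coe_filter, Finset.mem_Ico, Set.mem_ofPred_eq, and_assoc]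

theorem count_mono (M : ℤ) (N : ℕ) {P Q : ℤ → Prop} (h : ∀ x, P x → Q x) :
    count M N P ≤ count M N Q := by
  classical
  rw [count_eq, count_eq]
  exact card_le_card (fun x hx => by
    rw [mem_filter] at hx ⊢
    exact ⟨hx.1, h x hx.2⟩)

theorem inv_iter {S : Set ℤ} (hS : ∀ x, x ∈ S ↔ T x ∈ S) (t : ℕ) (x : ℤ) : x ∈ S ↔ T^[t] x ∈ S := by
  induction t generalizing x with
  | zero => rfl
  | succ t ih => rw [Function.iterate_succ_apply, hS x, ih (T x)]

theorem const_eq : √ 2 * Pool.Agent.K7.H66.CW.cG = 2 / √ Real.pi := by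
  unfold Pool.Agent.K7.H66.CW.cG
  rw [← Real.sqrt_mul (by norm_num), show (2 : ℝ) * (2 / Real.pi) = 2 ^ 2 / Real.pi by ring,
    Real.sqrt_div (by positivity), Real.sqrt_sq (by norm_num)]

/-- (1) The mean distance of the exponents of `3` of the forms `3^i x + r` and `3^j x + r'` after `k`
steps is nondecreasing in `k` and converges; the limit is at least `|i - j|`, at least `1` if the forms
are different, and at most a constant times the scale `1 + |i - j| + √log (2 + |r| + |r'|)`.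
(2) The sharp tail of the coalescence time: the number of the integers `x`, `M ≤ x < M + N`, with
`T^t (3^i x + r) ≠ T^t (3^j x + r')` is `(2 / √π) * lim * N / √t` up to the small multiple
`ε * scale * N / √t`, uniformly for `2^t √t ≤ δ N`, `|i - j| ≤ δ √t` and `|r|, |r'| ≤ exp (δ t)`.
(3) For fixed `i, j, r, r'` and every `ε > 0`, for all large `N`, all `M` and all sets `S` of integers
with `x ∈ S ↔ T x ∈ S`, the number of the `x` in `[M, M + N)` for which exactly one of `3^i x + r` and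
`3^j x + r'` is in `S` is at most `((2 / √π) * lim + ε) * N / √(log₂ N)`.
(4) The same for the integers with divergent trajectories. -/
theorem result :
    (∃ C : ℝ, ∀ (i j : ℕ) (r r' : ℤ), Monotone (fun k => mean k i j r r') ∧
      Tendsto (fun k => mean k i j r r') atTop (𝓝 (lim i j r r')) ∧
      |(i : ℝ) - j| ≤ lim i j r r' ∧ lim i j r r' ≤ C * scale i j r r' ∧
      ((i, r) ≠ (j, r') → 1 ≤ lim i j r r')) ∧
    (∀ ε : ℝ, 0 < ε → ∃ δ : ℝ, 0 < δ ∧ ∃ t0 : ℕ, ∀ t ≥ t0, ∀ (M : ℤ) (N : ℕ),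
      (2 : ℝ) ^ t * √ t ≤ δ * N → ∀ (i j : ℕ) (r r' : ℤ), |(i : ℝ) - j| ≤ δ * √ t →
      |(r : ℝ)| ≤ Real.exp (δ * t) → |(r' : ℝ)| ≤ Real.exp (δ * t) →
      |(count M N (fun x => T^[t] (3 ^ i * x + r) ≠ T^[t] (3 ^ j * x + r')) : ℝ) -
        2 / √ Real.pi * lim i j r r' * (N / √ t)| ≤ ε * scale i j r r' * (N / √ t)) ∧
    (∀ (i j : ℕ) (r r' : ℤ) (ε : ℝ), 0 < ε → ∃ N0 : ℕ, ∀ N ≥ N0, ∀ (M : ℤ),
      (∀ S : Set ℤ, (∀ x, x ∈ S ↔ T x ∈ S) →
        (count M N (fun x => ¬ (3 ^ i * x + r ∈ S ↔ 3 ^ j * x + r' ∈ S)) : ℝ) ≤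
          (2 / √ Real.pi * lim i j r r' + ε) * (N / √ (Real.logb 2 N))) ∧
      (count M N (fun x => ¬ (Divergent (3 ^ i * x + r) ↔ Divergent (3 ^ j * x + r'))) : ℝ) ≤
          (2 / √ Real.pi * lim i j r r' + ε) * (N / √ (Real.logb 2 N))) := by
  refine ⟨?_, ?_, ?_⟩
  · obtain ⟨C, _, hC⟩ := Pool.Agent.K7.H66.CW.aa_le_bb
    refine ⟨C, fun i j r r' => ⟨?_, ?_, ?_, ?_, ?_⟩⟩
    · intro k k' h
      simp only [mean_eq']
      exact Pool.Agent.K7.H66.CW.lv_mono h _
    · simp only [mean_eq', lim_eq]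
      exact Pool.Agent.K7.H66.CW.aa_tendsto _
    · rw [lim_eq]
      have h := Pool.Agent.K7.H66.CW.aa_ge (st (i, r) (j, r'))
      have h1 : Pool.Agent.K7.H66.CW.lv (st (i, r) (j, r')) = |(i : ℝ) - j| :=
        Pool.Agent.K7.H66.CW.st_level i j r r'
      rwa [h1] at h
    · rw [lim_eq]
      refine (hC _).trans (mul_le_mul_of_nonneg_left (Pool.Agent.K7.H66.CW.bb_le i j r r') (by positivity))
    · intro hne
      rw [lim_eq]
      apply Pool.Agent.K7.H66.CW.aa_ge_one
      intro h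
      exact hne (Pool.Agent.W38.CR.st_eq_zero.1 h)
  · intro ε hε
    obtain ⟨δ, hδ, t0, _, h⟩ := Pool.Agent.K7.H66.CW.sharp_int hε
    refine ⟨δ, hδ, t0, fun t ht M N hN i j r r' hij hr hr' => ?_⟩
    have h1 := h t ht M N hN i j r r' hij hr hr'
    rw [← T_eq, const_eq, ← lim_eq] at h1
    have h2 : (count M N (fun x => T^[t] (3 ^ i * x + r) ≠ T^[t] (3 ^ j * x + r')) : ℝ) =
        (#((Finset.Ico M (M + N)).filter (fun x => ¬ T^[t] (3 ^ i * x + r) = T^[t] (3 ^ j * x + r'))) : ℝ) := by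
      rw [count_eq]
    rw [h2]
    exact h1
  · intro i j r r' ε hε
    have key : ∃ N0 : ℕ, ∀ N ≥ N0, ∀ (M : ℤ) (S : Set ℤ), (∀ x, x ∈ S ↔ T x ∈ S) →
        (count M N (fun x => ¬ (3 ^ i * x + r ∈ S ↔ 3 ^ j * x + r' ∈ S)) : ℝ) ≤
          (2 / √ Real.pi * lim i j r r' + ε) * (N / √ (Real.logb 2 N)) := by
      have hsc : 1 ≤ scale i j r r' := by
        unfold scale
        have := abs_nonneg ((i : ℝ) - j)
        have := Real.sqrt_nonneg (Real.log (2 + |(r : ℝ)| + |(r' : ℝ)|))
        linarith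
      obtain ⟨δ, hδ, t0, ht01, h⟩ := Pool.Agent.K7.H66.CW.sharp_int (show 0 < ε / (2 * scale i j r r') by positivity)
      set c : ℝ := 2 / √ Real.pi * lim i j r r' with hc
      have hc0 : 0 ≤ c := by
        have h1 : 0 ≤ lim i j r r' := by
          rw [lim_eq]
          exact (Pool.Agent.K7.H66.CW.lv_nonneg _).trans (Pool.Agent.K7.H66.CW.aa_ge _)
        positivity
      have hη : 0 < ε / (2 * (c + ε)) := by positivity
      have hev : ∀ᶠ t : ℕ in atTop, |(i : ℝ) - j| ≤ δ * √ t ∧ |(r : ℝ)| ≤ Real.exp (δ * t) ∧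
          |(r' : ℝ)| ≤ Real.exp (δ * t) := by
        have hT := tendsto_natCast_atTop_atTop (R := ℝ)
        filter_upwards [Pool.Agent.K7.H66.CW.sqrt_big (|(i : ℝ) - j| / δ), hT.eventually_ge_atTop (|(r : ℝ)| / δ),
          hT.eventually_ge_atTop (|(r' : ℝ)| / δ)] with t h1 h2 h3
        rw [div_le_iff₀ hδ] at h1 h2 h3
        have h4 := Real.add_one_le_exp (δ * t)
        exact ⟨by linarith, by linarith, by linarith⟩
      obtain ⟨t1, ht1⟩ := eventually_atTop.1 hev
      obtain ⟨N0, hN0⟩ := Pool.Agent.K7.H66.CW.exists_time hδ hη (max t0 t1)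
      refine ⟨max N0 2, fun N hN M S hS => ?_⟩
      obtain ⟨t, htt, hNt, hlog⟩ := hN0 N ((le_max_left _ _).trans hN)
      have htt0 : t0 ≤ t := (le_max_left _ _).trans htt
      obtain ⟨g1, g2, g3⟩ := ht1 t ((le_max_right _ _).trans htt)
      have h1 := h t htt0 M N hNt i j r r' g1 g2 g3
      rw [← T_eq, const_eq, ← lim_eq, ← hc] at h1
      have htr : (1 : ℝ) ≤ t := by exact_mod_cast ht01.trans htt0
      have hR0 : 0 < √ (t : ℝ) := Real.sqrt_pos.2 (by linarith)
      have hN2 : (2 : ℝ) ≤ N := by exact_mod_cast (le_max_right _ _).trans hN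
      have hL1 : 1 ≤ Real.logb 2 N := by
        rw [Real.le_logb_iff_rpow_le (by norm_num) (by linarith), Real.rpow_one]; exact hN2
      have hL0 : 0 < √ (Real.logb 2 N) := Real.sqrt_pos.2 (by linarith)
      have e1 : (count M N (fun x => ¬ (3 ^ i * x + r ∈ S ↔ 3 ^ j * x + r' ∈ S)) : ℝ) ≤
          (#((Finset.Ico M (M + N)).filter (fun x => ¬ T^[t] (3 ^ i * x + r) = T^[t] (3 ^ j * x + r'))) : ℝ) := by
        rw [← count_eq]
        have : count M N (fun x => ¬ (3 ^ i * x + r ∈ S ↔ 3 ^ j * x + r' ∈ S)) ≤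
            count M N (fun x => ¬ T^[t] (3 ^ i * x + r) = T^[t] (3 ^ j * x + r')) := by
          apply count_mono
          intro x hx heq
          apply hx
          rw [inv_iter hS t (3 ^ i * x + r), inv_iter hS t (3 ^ j * x + r'), heq]
        exact_mod_cast this
      have e2 := (abs_le.1 h1).2
      have e3 : ε / (2 * scale i j r r') * (1 + |(i : ℝ) - j| + √ (Real.log (2 + |(r : ℝ)| + |(r' : ℝ)|))) *
          (N / √ t) = ε / 2 * (N / √ t) := by
        have : (1 + |(i : ℝ) - j| + √ (Real.log (2 + |(r : ℝ)| + |(r' : ℝ)|))) = scale i j r r' := rfl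
        rw [this]
        congr 1
        field_simp
      rw [e3] at e2
      have e4 : (N : ℝ) / √ t ≤ (1 + ε / (2 * (c + ε))) * (N / √ (Real.logb 2 N)) := by
        have a1 : √ (Real.logb 2 N) ≤ (1 + ε / (2 * (c + ε))) * √ t := by
          rw [Real.sqrt_le_left (by positivity), mul_pow, Real.sq_sqrt (by linarith)]
          refine hlog.trans ?_
          apply mul_le_mul_of_nonneg_right _ (by linarith)
          nlinarith
        rw [mul_div_assoc', div_le_div_iff₀ hR0 hL0]
        have := mul_le_mul_of_nonneg_left a1 (show (0 : ℝ) ≤ N by linarith)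
        linarith
      have e5 : 0 ≤ (N : ℝ) / √ (Real.logb 2 N) := by positivity
      calc (count M N (fun x => ¬ (3 ^ i * x + r ∈ S ↔ 3 ^ j * x + r' ∈ S)) : ℝ) ≤ (c + ε / 2) * (N / √ t) := by linarith
        _ ≤ (c + ε / 2) * ((1 + ε / (2 * (c + ε))) * (N / √ (Real.logb 2 N))) :=
            mul_le_mul_of_nonneg_left e4 (by positivity)
        _ = ((c + ε / 2) * (1 + ε / (2 * (c + ε)))) * (N / √ (Real.logb 2 N)) := by ring
        _ ≤ (c + ε) * (N / √ (Real.logb 2 N)) := by
            apply mul_le_mul_of_nonneg_right _ e5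
            have a1 : (c + ε / 2) * (ε / (2 * (c + ε))) ≤ (c + ε) * (ε / (2 * (c + ε))) :=
              mul_le_mul_of_nonneg_right (by linarith) hη.le
            have a2 : (c + ε) * (ε / (2 * (c + ε))) = ε / 2 := by field_simp
            linarith
    obtain ⟨N0, hN0⟩ := key
    exact ⟨N0, fun N hN M => ⟨fun S hS => hN0 N hN M S hS, hN0 N hN M {x | Divergent x} (fun x => div_T x)⟩⟩

end Pool.Agent.Results.MP_ff4775_nt.SharpTail
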